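import Mathlib
import Pool.Agent.R528.RM.Sp6

set_option autoImplicit false

/-!
# First occurrences of (several consecutive) large gaps in random models of the primes

Shanks' conjecture says that the first prime `p(g)` that follows a run of at least `g` consecutive
composite numbers satisfies `log p(g) ~ √g`.  We prove the corresponding statement, and its extension
to `k` consecutive gaps, in EVERY sequential random model of the primes: the integers are decided
one after the other, only integers coprime to a fixed `Q` can be chosen, and the conditional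
probability of choosing `n + 1` (coprime to `Q`) given the past is asymptotic to
`(Q / φ(Q)) / log n`; no independence is assumed (for `Q = 1` Cramér's model and the Hawkins random
sieve are examples).  Almost surely, for every `k ≥ 1`:

* the member `p` after the first `k` consecutive gaps which all contain at least `g` non-members
  satisfies `log p ~ √(k g)` (`k = 1` is Shanks' conjecture);
* so does the member after the first `k` consecutive gaps which are all EXACTLY `g`, along the
  possible `g` (those for which `k + 1` integers coprime to `Q` form a progression of difference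
  `g`).
-/

open MeasureTheory Filter
open scoped Topology

namespace Pool.Agent.Results.MP_926cc3_nt.FirstOccurrencesSievedModels

/-- the member number `n` (counted from `0`) of the set `S` of natural numbers -/
noncomputable def member (S : Set ℕ) (n : ℕ) : ℕ := Nat.nth (fun a => a ∈ S) n

/-- the member that follows the first `k` consecutive gaps which all contain at least `g` integers
outside `S` -/
noncomputable def afterLarge (S : Set ℕ) (k g : ℕ) : ℕ :=
  member S (sInf {n : ℕ | ∀ i < k, g < member S (n + i + 1) - member S (n + i)} + k)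

/-- the member that follows the first `k` consecutive gaps which are all equal to `g` -/
noncomputable def afterEqual (S : Set ℕ) (k g : ℕ) : ℕ :=
  member S (sInf {n : ℕ | ∀ i < k, member S (n + i + 1) = member S (n + i) + g} + k)

/-- there are `k + 1` integers coprime to `Q` in arithmetic progression with difference `g` -/
def Possible (Q k g : ℕ) : Prop := ∃ a, ∀ i ≤ k, Nat.Coprime (a + i * g) Q

open Pool.Agent.R528.RM

lemma member_eq (S : Set ℕ) (n : ℕ) : member S n = pn S n := rfl

/-- runs exist early -/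
lemma upper {S : Set ℕ} {Q k : ℕ} (hinf : S.Infinite) (hk : 1 ≤ k) {η : ℝ} (hη : 0 < η)
    (hrun : ∀ m : ℕ, ∀ᶠ x : ℕ in atTop, ∀ k d : ℕ, 1 ≤ k → 0 < d → (∃ a, ∀ i ≤ k, Nat.Coprime (a + i * d) Q) →
        (k : ℝ) * (Real.log (Real.log x) + d / Real.log x) ≤ (1 - 1 / ((m : ℝ) + 2)) * Real.log x →
        ∃ n, x ≤ 2 * pn S n ∧ pn S (n + k) ≤ x ∧ ∀ i ≤ k, pn S (n + i) = pn S n + i * d) :
    ∀ᶠ g : ℕ in atTop, Possible Q k g → ∃ n, (∀ i ≤ k, pn S (n + i) = pn S n + i * g) ∧
      Real.log (pn S (n + k)) ≤ (1 + η) * √((k : ℝ) * g) := by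
  obtain ⟨ε, hε0, hε1, hpar⟩ := first_param hk hη
  obtain ⟨m, hm⟩ := exists_nat_gt (1 / ε)
  rw [div_lt_iff₀ hε0] at hm
  have hm0 : (0 : ℝ) ≤ m := Nat.cast_nonneg _
  have hmε : 1 / ((m : ℝ) + 2) ≤ ε := by
    rw [div_le_iff₀ (by positivity)]
    nlinarith
  have hk' : (0 : ℝ) < k := by exact_mod_cast hk
  have hxt : Tendsto (fun g : ℕ => ⌊Real.exp ((1 + η) * √((k : ℝ) * g))⌋₊) atTop atTop := by
    apply tendsto_nat_floor_atTop.comp
    apply Real.tendsto_exp_atTop.comp
    apply Tendsto.const_mul_atTop (by linarith)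
    apply Real.tendsto_sqrt_atTop.comp
    exact tendsto_natCast_atTop_atTop.const_mul_atTop hk'
  filter_upwards [hpar, hxt.eventually (hrun m), hxt.eventually (ev_log 0), eventually_gt_atTop 0] with g g1 g2 g3 g4 hposs
  obtain ⟨n, _, h2, h3⟩ := g2 k g hk g4 hposs (g1.trans (by
    have := mul_le_mul_of_nonneg_right hmε g3
    linarith))
  refine ⟨n, h3, ?_⟩
  have h4 : (pn S (n + k) : ℝ) ≤ Real.exp ((1 + η) * √((k : ℝ) * g)) := by
    refine le_trans ?_ (Nat.floor_le (Real.exp_pos _).le)
    exact_mod_cast h2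
  have h5 : 0 < pn S (n + k) := by
    have h6 := h3 k le_rfl
    have : 0 < k * g := Nat.mul_pos hk g4
    omega
  rw [Real.log_le_iff_le_exp (by exact_mod_cast h5)]
  exact h4

/-- large gaps occur late -/
lemma lower {S : Set ℕ} {k : ℕ} (hinf : S.Infinite) (hk : 1 ≤ k) {η : ℝ} (hη : 0 < η)
    (hsum : ∀ m k : ℕ, ∀ᶠ n : ℕ in atTop, (pn S (n + k) : ℝ) ≤ pn S n + (1 + 1 / ((m : ℝ) + 1)) * Real.log (pn S n) ^ 2) :
    ∀ᶠ g : ℕ in atTop, ∀ n, (∀ i < k, pn S (n + i) + g ≤ pn S (n + i + 1)) →
      √((k : ℝ) * g) ≤ (1 + η) * Real.log (pn S (n + k)) := by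
  obtain ⟨m, hm⟩ := exists_nat_one_div_lt hη
  have hm0 : 0 < 1 / ((m : ℝ) + 1) := by positivity
  filter_upwards [large_late hinf (c := 1 + 1 / ((m : ℝ) + 1)) (by positivity) hk (hsum m k)] with g hg n hn
  have h1 := hg n hn
  have h2 : 0 ≤ Real.log (pn S (n + k)) := Real.log_natCast_nonneg _
  apply Real.sqrt_le_iff.2
  refine ⟨by positivity, h1.trans ?_⟩
  rw [mul_pow]
  apply mul_le_mul_of_nonneg_right _ (by positivity)
  nlinarith

/-- a limit from bounds -/
lemma lim_of {l : Filter ℕ} {f : ℕ → ℝ} (h : ∀ η : ℝ, 0 < η → η < 1 → ∀ᶠ g in l, 1 ≤ (1 + η) * f g ∧ f g ≤ (1 + η) ^ 2) :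
    Tendsto f l (𝓝 1) := by
  rw [Metric.tendsto_nhds]
  intro ε hε
  set η : ℝ := min (ε / 4) (1 / 2) with hη
  have h0 : 0 < η := lt_min (by linarith) (by norm_num)
  have h1 : η ≤ ε / 4 := min_le_left _ _
  have h2 : η ≤ 1 / 2 := min_le_right _ _
  filter_upwards [h η h0 (by linarith)] with g hg
  rw [Real.dist_eq, abs_lt]
  obtain ⟨g1, g2⟩ := hg
  constructor
  · by_contra hcon
    push Not at hcon
    have : (1 + η) * f g ≤ (1 + η) * (1 - ε) := mul_le_mul_of_nonneg_left (by linarith) (by linarith)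
    nlinarith
  · nlinarith

end Pool.Agent.Results.MP_926cc3_nt.FirstOccurrencesSievedModels

open Pool.Agent.Results.MP_926cc3_nt.FirstOccurrencesSievedModels

/-- Let `A n` be the event that `n` belongs to a random set adapted to a filtration `ℱ`, let
`Q ≥ 1`, let no integer which is not coprime to `Q` be chosen, and let the conditional probability of
`A (n + 1)` given `ℱ n`, times `log n`, tend to `Q / φ(Q)` along the `n` with `n + 1` coprime to `Q`,
almost surely.  Then almost surely the random set is infinite and, for every `k ≥ 1`: the member `p`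
following the first `k` consecutive gaps that all contain at least `g` integers outside the set
satisfies `log p ~ √(k g)` as `g` tends to infinity; and so does the member following the first `k`
consecutive gaps that are all equal to `g`, as `g` tends to infinity through the possible values. -/
theorem Pool.Agent.Results.MP_926cc3_nt.FirstOccurrencesSievedModels.result
    {Ω : Type} [mΩ : MeasurableSpace Ω] (μ : Measure Ω) [IsProbabilityMeasure μ]
    (ℱ : Filtration ℕ mΩ) (A : ℕ → Set Ω) (hA : ∀ n, MeasurableSet[ℱ n] (A n))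
    (Q : ℕ) (hQ : 0 < Q) (hcop : ∀ n, ¬ Nat.Coprime n Q → A n = ∅)
    (hd : ∀ᵐ ω ∂μ, Tendsto (fun n : ℕ =>
      (μ[(A (n + 1)).indicator (fun _ => (1 : ℝ)) | ℱ n]) ω * Real.log n)
      (atTop ⊓ 𝓟 {n : ℕ | Nat.Coprime (n + 1) Q}) (𝓝 ((Q : ℝ) / Nat.totient Q))) :
    ∀ᵐ ω ∂μ, {k | ω ∈ A k}.Infinite ∧ ∀ k : ℕ, 1 ≤ k →
      Tendsto (fun g : ℕ => Real.log (afterLarge {k | ω ∈ A k} k g) / √((k : ℝ) * g)) atTop (𝓝 1) ∧
      Tendsto (fun g : ℕ => Real.log (afterEqual {k | ω ∈ A k} k g) / √((k : ℝ) * g))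
        (atTop ⊓ 𝓟 {g : ℕ | Possible Q k g}) (𝓝 1) := by
  have hprof := Pool.Agent.R528.RM.dens_profile (μ := μ) (ℱ := ℱ) hA Q hQ hcop hd
  have hall : ∀ᵐ ω ∂μ, ∀ m : ℕ, {k | ω ∈ A k}.Infinite ∧
      (∀ᶠ x : ℕ in atTop, ∀ k d : ℕ, 1 ≤ k → 0 < d → (∃ a, ∀ i ≤ k, Nat.Coprime (a + i * d) Q) →
        (k : ℝ) * (Real.log (Real.log x) + d / Real.log x) ≤ (1 - 1 / ((m : ℝ) + 2)) * Real.log x →
        ∃ n, x ≤ 2 * Pool.Agent.R528.RM.pn {k | ω ∈ A k} n ∧ Pool.Agent.R528.RM.pn {k | ω ∈ A k} (n + k) ≤ x ∧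
          ∀ i ≤ k, Pool.Agent.R528.RM.pn {k | ω ∈ A k} (n + i) = Pool.Agent.R528.RM.pn {k | ω ∈ A k} n + i * d) ∧
      (∀ᶠ x : ℕ in atTop, ∀ n k d : ℕ, 1 ≤ k → 0 < d → Pool.Agent.R528.RM.pn {k | ω ∈ A k} n ≤ x →
        (∀ i ≤ k, Pool.Agent.R528.RM.pn {k | ω ∈ A k} (n + i) = Pool.Agent.R528.RM.pn {k | ω ∈ A k} n + i * d) →
        k * (Real.log (Real.log x) + d / Real.log x) < (1 + 1 / ((m : ℝ) + 2)) * Real.log x) := by
    rw [ae_all_iff]
    intro m
    apply Pool.Agent.R528.RM.runs_law hA hQ hprof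
    · positivity
    · rw [div_lt_one (by positivity)]
      have : (0 : ℝ) ≤ m := Nat.cast_nonneg _
      linarith
  have hmany : ∀ m : ℕ, ∃ κ : ℝ, 0 < κ ∧ ∀ᵐ ω ∂μ, ∀ᶠ y : ℕ in atTop,
      κ * Real.log y < Pool.Agent.R528.RM.cnt A y ⌊(1 + 1 / ((m : ℝ) + 1)) * Real.log y ^ 2⌋₊ ω := by
    intro m
    have hm : 0 < 1 / ((m : ℝ) + 1) := by positivity
    exact Pool.Agent.R528.RM.many_in_window hA hQ hprof (by linarith)
  choose κ hκ0 hκ using hmany
  filter_upwards [hall, ae_all_iff.2 hκ] with ω h1 h2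
  set S : Set ℕ := {k | ω ∈ A k} with hS
  have hinf : S.Infinite := (h1 0).1
  have hmono := Pool.Agent.R528.RM.nth_mono hinf
  have hrun := fun m => (h1 m).2.1
  have hsum : ∀ m k : ℕ, ∀ᶠ n : ℕ in atTop, (Pool.Agent.R528.RM.pn S (n + k) : ℝ) ≤
      Pool.Agent.R528.RM.pn S n + (1 + 1 / ((m : ℝ) + 1)) * Real.log (Pool.Agent.R528.RM.pn S n) ^ 2 := fun m k =>
    Pool.Agent.R528.RM.sum_gaps_le hinf (hκ0 m) (by positivity) (h2 m) k
  refine ⟨hinf, fun k hk => ⟨lim_of fun η hη0 hη1 => ?_, lim_of fun η hη0 hη1 => ?_⟩⟩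
  · have hk' : (0 : ℝ) < k := by exact_mod_cast hk
    -- the next multiple of `Q`
    have hg't : Tendsto (fun g : ℕ => Q * (g / Q + 1)) atTop atTop := by
      apply tendsto_atTop_mono (fun g => ?_) tendsto_id
      have h3 := Nat.div_add_mod g Q
      have h4 := Nat.mod_lt g hQ
      show g ≤ Q * (g / Q + 1)
      have : Q * (g / Q + 1) = Q * (g / Q) + Q := by ring
      omega
    have hratio : Tendsto (fun g : ℕ => 1 + (Q : ℝ) / g) atTop (𝓝 1) := by
      have := (tendsto_const_div_atTop_nhds_zero_nat (Q : ℝ)).const_add 1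
      rwa [add_zero] at this
    filter_upwards [hg't.eventually (upper hinf hk hη0 hrun), lower hinf hk hη0 hsum, eventually_gt_atTop 0,
      hratio.eventually (eventually_lt_nhds (show (1 : ℝ) < (1 + η) ^ 2 by nlinarith))] with g g1 g2 g3 g4
    have hg0 : (0 : ℝ) < g := by exact_mod_cast g3
    have hmod := Nat.div_add_mod g Q
    have hlt := Nat.mod_lt g hQ
    have hg'e : Q * (g / Q + 1) = Q * (g / Q) + Q := by ring
    set g' := Q * (g / Q + 1) with hg'
    have hgg' : g < g' := by omega
    have hg'le : g' ≤ g + Q := by omega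
    obtain ⟨n, hn1, hn2⟩ := g1 ⟨1, fun i _ => by
      rw [hg', show 1 + i * (Q * (g / Q + 1)) = 1 + Q * (i * (g / Q + 1)) by ring]
      exact (Nat.coprime_add_mul_left_left 1 Q _).2 (Nat.coprime_one_left _)⟩
    set M : Set ℕ := {n : ℕ | ∀ i < k, g < member S (n + i + 1) - member S (n + i)} with hM
    have hnM : n ∈ M := by
      intro i hi
      rw [member_eq, member_eq, show n + i + 1 = n + (i + 1) by ring, hn1 (i + 1) (by omega), hn1 i (by omega)]
      have : (i + 1) * g' = i * g' + g' := by ring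
      omega
    have hin : sInf M ∈ M := Nat.sInf_mem ⟨n, hnM⟩
    have hle : sInf M ≤ n := Nat.sInf_le hnM
    have e1 : afterLarge S k g = Pool.Agent.R528.RM.pn S (sInf M + k) := rfl
    rw [e1]
    have h3 := g2 (sInf M) (by
      intro i hi
      have := hin i hi
      rw [member_eq, member_eq] at this
      omega)
    have hsq : 0 < √((k : ℝ) * g) := Real.sqrt_pos.2 (by positivity)
    constructor
    · rw [← mul_div_assoc, le_div_iff₀ hsq, one_mul]
      exact h3
    · rw [div_le_iff₀ hsq]
      have hpos : 0 < Pool.Agent.R528.RM.pn S (sInf M + k) := by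
        have := hmono (show sInf M < sInf M + k by omega)
        omega
      have h4 : Real.log (Pool.Agent.R528.RM.pn S (sInf M + k)) ≤ Real.log (Pool.Agent.R528.RM.pn S (n + k)) :=
        Real.log_le_log (by exact_mod_cast hpos) (by exact_mod_cast hmono.monotone (by omega))
      have h5 : √((k : ℝ) * g') ≤ (1 + η) * √((k : ℝ) * g) := by
        rw [← Real.sqrt_sq (show 0 ≤ 1 + η by linarith), ← Real.sqrt_mul (by positivity)]
        apply Real.sqrt_le_sqrt
        have h6 : (g' : ℝ) ≤ g + Q := by exact_mod_cast hg'le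
        have h7 : (g : ℝ) + Q ≤ (1 + η) ^ 2 * g := by
          have h8 := mul_le_mul_of_nonneg_right g4.le hg0.le
          have h9 : (1 + (Q : ℝ) / g) * g = g + Q := by field_simp
          linarith
        have h8 := mul_le_mul_of_nonneg_left (h6.trans h7) hk'.le
        linarith
      have h6 := mul_le_mul_of_nonneg_left h5 (show 0 ≤ 1 + η by linarith)
      linarith
  · rw [eventually_inf_principal]
    have hk' : (0 : ℝ) < k := by exact_mod_cast hk
    filter_upwards [upper hinf hk hη0 hrun, lower hinf hk hη0 hsum, eventually_gt_atTop 0] with g g1 g2 g3 hposs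
    have hg0 : (0 : ℝ) < g := by exact_mod_cast g3
    obtain ⟨n, hn1, hn2⟩ := g1 hposs
    set M : Set ℕ := {n : ℕ | ∀ i < k, member S (n + i + 1) = member S (n + i) + g} with hM
    have hnM : n ∈ M := by
      intro i hi
      rw [member_eq, member_eq, show n + i + 1 = n + (i + 1) by ring, hn1 (i + 1) (by omega), hn1 i (by omega)]
      ring
    have hin : sInf M ∈ M := Nat.sInf_mem ⟨n, hnM⟩
    have hle : sInf M ≤ n := Nat.sInf_le hnM
    have e1 : afterEqual S k g = Pool.Agent.R528.RM.pn S (sInf M + k) := rfl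
    rw [e1]
    have h3 := g2 (sInf M) (by
      intro i hi
      have := hin i hi
      rw [member_eq, member_eq] at this
      omega)
    have hsq : 0 < √((k : ℝ) * g) := Real.sqrt_pos.2 (by positivity)
    constructor
    · rw [← mul_div_assoc, le_div_iff₀ hsq, one_mul]
      exact h3
    · rw [div_le_iff₀ hsq]
      have hpos : 0 < Pool.Agent.R528.RM.pn S (sInf M + k) := by
        have := hmono (show sInf M < sInf M + k by omega)
        omega
      have h4 : Real.log (Pool.Agent.R528.RM.pn S (sInf M + k)) ≤ Real.log (Pool.Agent.R528.RM.pn S (n + k)) :=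
        Real.log_le_log (by exact_mod_cast hpos) (by exact_mod_cast hmono.monotone (by omega))
      have h5 : (1 + η) * √((k : ℝ) * g) ≤ (1 + η) ^ 2 * √((k : ℝ) * g) := by
        apply mul_le_mul_of_nonneg_right _ hsq.le
        nlinarith
      linarith
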