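import Mathlib
import Pool.Agent.R433.WF.Multi

set_option autoImplicit false

/-!
# Record prime gaps around the values of multilinear forms at the vectors of a basis

Let `f(Z) = log Z (log₂ Z)² log₄ Z / (log₃ Z)²` be the largest known order of prime gaps (up to
constants).  For every set `I` of indices `1, …, m` let `φ_I` be a nonzero integral multilinear form
of `|I|` vectors of `ℤ ^ m` (the forms for different sets `I` are arbitrary and not related to each
other).  Then `ℤ ^ m` has bases `a_1, …, a_m`, of determinant one, in every residue class of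
`SL_m(ℤ)` modulo `q`, with coordinates at most `Z` in absolute value (`Z` any large number), such
that ALL the `2 ^ m - 2` numbers `φ_I ((a_i)_{i ∈ I})`, `I` nonempty and proper, are at most `Z` in
absolute value and every integer `t` at distance at most `c f(Z)` from one of them is composite,
with a prime factor `p ≤ |t| ^ (1/10)`.  So all these values lie in the middle of prime gaps of the
largest known order.

Examples: (1) for every full flag of sublattices of `ℤ ^ m` there is a translate by `SL_m(ℤ)` whose
`2 ^ m - 2` Plücker coordinates all lie in the middle of record gaps (`φ_I` = the determinant of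
the products of the `|I|` vectors with the vectors of the flag); (2) for integral alternating forms
`ω_1, …, ω_{m - 1}` (of degrees `1, …, m - 1`), all nonzero, all the coefficients in a suitable
basis lie in the middle of record gaps; for instance a symplectic form on `ℤ ^ (2 g)`, `g ≥ 2`.

Method.  The value `φ_I` at the rows of `A` is a weight vector of the torus of `SL_m` with the
weight `e_I`, `I` nonempty and proper.  It is not identically zero modulo the large primes `p` on
`SL_m(𝔽_p)`, and a cocharacter with the value one on `e_I` makes its nonzero values equidistributed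
(`Wt.eq_of_wt`).  The weights `e_I`, `e_J` of two different sets are separated by a cocharacter,
which bounds the number of the matrices for which two of the forms have given values (`Wt.pair`).
With the polynomial parametrisations of `SL_m` of the library `R433/SL`, almost uniform modulo all
the large primes, the criterion of the starting library (`Y837/SV/Crit3`) applies.
-/

namespace Pool.Agent.Results.MP_926cc3_nt.MultilinearFormsOnBases

/-- `f Z = log Z (log₂ Z)² log₄ Z / (log₃ Z)²`. -/
noncomputable def f (Z : ℝ) : ℝ :=
  Real.log Z * (Real.log (Real.log Z)) ^ 2 * Real.log (Real.log (Real.log (Real.log Z))) /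
    (Real.log (Real.log (Real.log Z))) ^ 2

/-- **Record prime gaps around all the values of given nonzero multilinear forms `φ I` at the
vectors `A i`, `i ∈ I`, of a basis.** -/
theorem result (m q : ℕ) (hq : 0 < q) (B : Matrix (Fin m) (Fin m) ℤ) (hB : B.det = 1)
    (φ : ∀ I : Finset (Fin m), MultilinearMap ℤ (fun _ : {x // x ∈ I} => Fin m → ℤ) ℤ)
    (hφ : ∀ I, φ I ≠ 0) :
    ∃ c : ℝ, 0 < c ∧ ∃ Z₀ : ℝ, ∀ Z : ℕ, Z₀ ≤ Z → ∃ A : Matrix (Fin m) (Fin m) ℤ,
      A.det = 1 ∧ (∀ i j, |A i j| ≤ Z) ∧ (∀ i j, (q : ℤ) ∣ A i j - B i j) ∧
      ∀ I : Finset (Fin m), I.Nonempty → I ≠ Finset.univ → |φ I fun i => A i.1| ≤ Z ∧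
        ∀ t : ℤ, |(t : ℝ) - ((φ I fun i => A i.1 : ℤ) : ℝ)| ≤ c * f Z →
          ∃ p : ℕ, p.Prime ∧ (p : ℤ) ^ 10 ≤ |t| ∧ (p : ℤ) ∣ t :=
  Pool.Agent.R433.WF.multimain m q hq ⟨B, hB⟩ φ hφ

end Pool.Agent.Results.MP_926cc3_nt.MultilinearFormsOnBases
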