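import Mathlib
import Pool.Agent.R502.SH.Law

set_option autoImplicit false

/-!
# Shanks' conjecture in random models of the primes: the exact second order laws

Shanks conjectured that `ln p(g) ~ √g`, where `p(g)` is the first prime that follows a run of at
least `g` consecutive composite numbers.  The conjecture comes from a random model of the primes.
The theorem below gives the exact upper and lower envelopes of `ln p(g)`, at the second order, in
EVERY random model in which the integers are decided one after the other and the conditional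
probability of choosing `n + 1` given the past is `1 / (log n + o(log log log n))` (no independence
is assumed; Cramér's model and the Hawkins random sieve are examples).  Almost surely
`ln p(g) / √g → 1` and

* `(ln p(g) - √g) / log log √g` has the lower limit `-1/2`,
* `(ln p(g) - √g - (1/2) log √g) / log log √g` has the upper limit `1/2`.

Proof: inversion (`Pool/Agent/R502/SH`) of the laws for the gaps and for the maximal gap
(`Pool/Agent/R528/RM`, helper528).
-/

open MeasureTheory Filter
open scoped Topology

namespace Pool.Agent.Results.MP_926cc3_nt.RandomModelsSecondOrder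

/-- the member number `n` of `S` in increasing order (the least member has number `0`) -/
noncomputable def member (S : Set ℕ) (n : ℕ) : ℕ := Nat.nth (· ∈ S) n

/-- Shanks' `p(g)` for the set `S`: the first member of `S` which follows a run of at least `g`
consecutive nonmembers, the run being preceded by a member: `p(g) = p_(n+1)` for the least `n` with
`p_(n+1) - p_n - 1 ≥ g` -/
noncomputable def p (S : Set ℕ) (g : ℕ) : ℕ :=
  sInf {m : ℕ | ∃ n, m = member S (n + 1) ∧ g ≤ member S (n + 1) - member S n - 1}

end Pool.Agent.Results.MP_926cc3_nt.RandomModelsSecondOrder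

open Pool.Agent.Results.MP_926cc3_nt.RandomModelsSecondOrder

/-- Let `A n` be the event that `n` belongs to a random set adapted to a filtration `ℱ`, and suppose
that almost surely the conditional probability `d` of `A (n + 1)` given `ℱ n` satisfies
`1 / d = log n + o(log log log n)`.  Then almost surely the random set is infinite, runs of every
length exist, `ln p(g) / √g → 1`, and for every `ε > 0`, with `s = √g`,
`s - (1/2 + ε) log log s ≤ ln p(g) ≤ s + (1/2) log s + (1/2 + ε) log log s` for all large `g`, while
`ln p(g) ≤ s - (1/2 - ε) log log s` for infinitely many `g`, and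
`ln p(g) ≥ s + (1/2) log s + (1/2 - ε) log log s` for infinitely many `g`. -/
theorem Pool.Agent.Results.MP_926cc3_nt.RandomModelsSecondOrder.result
    {Ω : Type} [mΩ : MeasurableSpace Ω] (μ : Measure Ω) [IsProbabilityMeasure μ]
    (ℱ : Filtration ℕ mΩ) (A : ℕ → Set Ω) (hA : ∀ n, MeasurableSet[ℱ n] (A n))
    (hd : ∀ᵐ ω ∂μ, Tendsto (fun n : ℕ =>
      ((μ[(A (n + 1)).indicator (fun _ => (1 : ℝ)) | ℱ n] ω)⁻¹ - Real.log n) /
        Real.log (Real.log (Real.log n))) atTop (𝓝 0)) :
    ∀ᵐ ω ∂μ, {k | ω ∈ A k}.Infinite ∧
      (∀ g : ℕ, ∃ n, p {k | ω ∈ A k} g = member {k | ω ∈ A k} (n + 1) ∧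
        g ≤ member {k | ω ∈ A k} (n + 1) - member {k | ω ∈ A k} n - 1) ∧
      Tendsto (fun g : ℕ => Real.log (p {k | ω ∈ A k} g) / Real.sqrt g) atTop (𝓝 1) ∧
      ∀ ε : ℝ, 0 < ε →
        (∀ᶠ g : ℕ in atTop,
          Real.sqrt g - (1 / 2 + ε) * Real.log (Real.log (Real.sqrt g)) ≤
            Real.log (p {k | ω ∈ A k} g) ∧
          Real.log (p {k | ω ∈ A k} g) ≤ Real.sqrt g + 1 / 2 * Real.log (Real.sqrt g) +
            (1 / 2 + ε) * Real.log (Real.log (Real.sqrt g))) ∧
        (∃ᶠ g : ℕ in atTop, Real.log (p {k | ω ∈ A k} g) ≤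
          Real.sqrt g - (1 / 2 - ε) * Real.log (Real.log (Real.sqrt g))) ∧
        (∃ᶠ g : ℕ in atTop, Real.sqrt g + 1 / 2 * Real.log (Real.sqrt g) +
          (1 / 2 - ε) * Real.log (Real.log (Real.sqrt g)) ≤ Real.log (p {k | ω ∈ A k} g)) := by
  filter_upwards [Pool.Agent.R528.RM.second_order hA hd, Pool.Agent.R528.RM.max_law hA hd]
    with ω hω hω'
  obtain ⟨h1, h2⟩ := hω
  obtain ⟨-, h3⟩ := hω'
  have hlaw := fun (ε : ℝ) (hε : 0 < ε) => Pool.Agent.R502.SH.law h1 h2 h3 ε hε
  refine ⟨h1, ?_, Pool.Agent.R502.SH.equiv_of_law (hlaw 1 one_pos).1, hlaw⟩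
  intro g
  apply Pool.Agent.R502.SH.pg_spec
  exact Pool.Agent.R502.SH.exists_gap h1 h2 g
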