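import Pool.Agent.R526.SP.Shanks

set_option autoImplicit false

/-!
# Shanks' asymptotic formula fails for locally moved primes if the moves respect the small sieve

Author: helper526.

Every large prime `p` stays where it is with probability `1 - δ`, and with probability `δ` it is moved to a uniformly
random one of the integers of `(p, p + W(p)]` that have no prime factor `≤ Z(p)`. Here `W(p) ~ (log p)^t` with a
fixed `t > 2`, and `Z(p) = (log p)^(β + o(1))`, `0 < β ≤ 1`; for instance `Z(p) = log p`, the level of the sieve in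
Granville's modification of Cramér's model. So the move is local and does not destroy the divisibility properties of the
primes by small primes. Let `𝒮` be the resulting random set, and `p(g)` the first element of `𝒮` that follows a run
of at least `g` integers outside `𝒮` (between two elements of `𝒮`), as in the definition of Shanks.

With Buchstab's function `ω` put `K = e^γ ω(2/β) (δ + log(1/δ))`. Almost surely
`limsup log p(g) / √g ≤ √K` as `g → ∞`.
(Equivalently, the largest gap up to `x` is at least `(1/K - o(1)) (log x)²` for all `x`.) For `β = 1`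
(`Z(p) = (log p)^(1 + o(1))`) we have `K = (e^γ / 2) (δ + log(1/δ))`; this is `< 1` for `3/5 ≤ δ ≤ 1`, so that
`log p(g) ~ √g` fails; for `δ = 1` the lower bound `2 e^(-γ) (log x)²` for the largest gap is Granville's.

Proof. As in `MP_b0c12c_nt.LocallyMovedPrimes` there are `X^(1 - o(1))` integers `n ≤ X` divisible by (almost) all the
primes `≤ (log X)^θ / 4`, `θ < β`, for which there are (in the mean) few primes in `(n, n + c (log n)²]` and in
`(n - (log n)^t, n]`. Now the possible destinations in the window are at most as many as the integers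
`i ≤ c (log n)²` without prime factors `≤ (log X)^θ / 4`, and one must show that for most `n` the number of ALL the
destinations of each prime `p` near `n` is not smaller than expected: the survivors with a prime factor
between `(log X)^θ / 4` and `(log X)^(β + o(1))` are few on average over `n`. Here Buchstab's asymptotic formula is
needed uniformly (proved by helper529, `R529/BU`). The quotient is independent of `t`, and the window is avoided
with probability at least `n^(-1 + o(1))` if `c < 1/K`; the events are negatively correlated; second moments.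
-/

open MeasureTheory ProbabilityTheory Filter Topology

namespace Pool.Agent.Results.MP_926cc3_nt.SievePreservingMoves

/-- `ω` is Buchstab's function: it is continuous on `[1, ∞)`, `u ω(u) = 1` for `1 ≤ u ≤ 2` and
`u ω(u) = 1 + ∫_1^(u-1) ω` for `u ≥ 2` (these conditions determine `ω` on `[1, ∞)`). -/
def IsBuchstab (ω : ℝ → ℝ) : Prop :=
  ContinuousOn ω (Set.Ici 1) ∧ (∀ u, 1 ≤ u → u ≤ 2 → u * ω u = 1) ∧
    ∀ u, 2 ≤ u → u * ω u = 1 + ∫ s in (1 : ℝ)..(u - 1), ω s

/-- the possible destinations of `p`: the integers of `(p, p + W p]` without prime factors `≤ Z p` -/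
def Dest (Z W : ℕ → ℕ) (p : ℕ) : Set ℕ :=
  {m : ℕ | p < m ∧ m ≤ p + W p ∧ ∀ q : ℕ, q.Prime → q ∣ m → Z p < q}

/-- The `ξ p` are independent, and for all primes `p ≥ p₀`: `ξ p` is almost surely `p` or a destination of `p`, and
it is equal to each of the destinations with probability `δ / N`, `N` the number of the destinations. (So it
is equal to `p` with probability `1 - δ` if there are destinations.) -/
def Moved (δ : ℝ) (Z W : ℕ → ℕ) (Ω : Type) [MeasurableSpace Ω] (μ : Measure Ω) (ξ : ℕ → Ω → ℕ) : Prop :=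
  (∀ p, Measurable (ξ p)) ∧ iIndepFun ξ μ ∧ ∃ p₀ : ℕ, ∀ p : ℕ, p.Prime → p₀ ≤ p →
    (∀ᵐ w ∂μ, ξ p w = p ∨ ξ p w ∈ Dest Z W p) ∧
    ∀ m ∈ Dest Z W p, μ.real {w | ξ p w = m} = δ / (Dest Z W p).ncard

/-- the set `𝒮` of all `ξ p`, `p` prime -/
def S {Ω : Type} (ξ : ℕ → Ω → ℕ) (w : Ω) : Set ℕ := {m : ℕ | ∃ p : ℕ, p.Prime ∧ ξ p w = m}

/-- `b ∈ S`, and between `b` and some smaller element `a` of `S` there are at least `g` integers, all outside `S` -/
def RunEnd (S : Set ℕ) (g b : ℕ) : Prop :=
  b ∈ S ∧ ∃ a ∈ S, a + g < b ∧ ∀ m, a < m → m < b → m ∉ S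

/-- The constant `e^γ ω(2/β) (δ + log(1/δ))`. -/
noncomputable def K (ω : ℝ → ℝ) (β δ : ℝ) : ℝ :=
  Real.exp Real.eulerMascheroniConstant * ω (2 / β) * (δ + Real.log (1 / δ))

/-- There is a function `ω` satisfying the conditions of Buchstab's function such that:
(1) Let `0 < β ≤ 1`, `log (Z p) / log log p → β`, `t > 2`, `W p ~ (log p)^t`, `0 < δ ≤ 1` and let `ξ p` be random
variables as in `Moved`. Then almost surely for every `ε > 0` and all large `g` the least `b` for which
`RunEnd 𝒮 g b` (Shanks' `p(g)` for `𝒮`) exists, and `log b ≤ (√K + ε) √g`.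
(2) For `β = 1` we have `K = (e^γ / 2) (δ + log(1/δ))`, and `K < 1` if `3/5 ≤ δ ≤ 1`. -/
theorem result : ∃ ω : ℝ → ℝ, IsBuchstab ω ∧
    (∀ (β t δ : ℝ), 0 < β → β ≤ 1 → 2 < t → 0 < δ → δ ≤ 1 → ∀ (Z W : ℕ → ℕ),
      Tendsto (fun p : ℕ => Real.log (Z p) / Real.log (Real.log p)) atTop (𝓝 β) →
      Tendsto (fun p : ℕ => (W p : ℝ) / (Real.log p) ^ t) atTop (𝓝 1) →
      ∀ (Ω : Type) [MeasurableSpace Ω] (μ : Measure Ω) [IsProbabilityMeasure μ] (ξ : ℕ → Ω → ℕ),
        Moved δ Z W Ω μ ξ →
        ∀ᵐ w ∂μ, ∀ ε : ℝ, 0 < ε → ∀ᶠ g : ℕ in atTop, ∃ b : ℕ, IsLeast {b | RunEnd (S ξ w) g b} b ∧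
          Real.log b ≤ (Real.sqrt (K ω β δ) + ε) * Real.sqrt g) ∧
    (∀ δ : ℝ, K ω 1 δ = Real.exp Real.eulerMascheroniConstant / 2 * (δ + Real.log (1 / δ)) ∧
      (3 / 5 ≤ δ → δ ≤ 1 → K ω 1 δ < 1)) := by
  refine ⟨Pool.Agent.R529.BU.om, ⟨Pool.Agent.R529.BU.om_cont.continuousOn, Pool.Agent.R529.BU.om_one_two,
    Pool.Agent.R529.BU.om_two⟩, ?_, ?_⟩
  · intro β t δ hβ hβ1 ht hδ0 hδ1 Z W hZ hW Ω _ μ _ ξ hM
    obtain ⟨h1, h2, p₀, h3⟩ := hM
    have hD : ∀ p, Dest Z W p = (Pool.Agent.R526.SP.Ph Z W p : Set ℕ) := by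
      intro p
      ext m
      rw [Finset.mem_coe, Pool.Agent.R526.SP.mem_Ph]
      unfold Dest
      rw [Set.mem_setOf_eq, and_assoc]
    have hc : ∀ p, (Dest Z W p).ncard = (Pool.Agent.R526.SP.Ph Z W p).card := by
      intro p
      rw [hD p, Set.ncard_coe_finset]
    have hK : K Pool.Agent.R529.BU.om β δ = (-Real.log δ + δ) * Pool.Agent.R529.BU.ww 2 β := by
      unfold K Pool.Agent.R529.BU.ww
      rw [one_div, Real.log_inv]
      ring
    rw [hK]
    have h4 := Pool.Agent.R526.SP.shanks μ h1 h2 t ht Z W hW β hZ δ hδ0 hδ1 p₀ (by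
      intro p hp hp0
      obtain ⟨h5, h6⟩ := h3 p hp hp0
      constructor
      · filter_upwards [h5] with w hw
        rw [hD p, Finset.mem_coe] at hw
        exact hw
      · intro m hm
        rw [h6 m (by rw [hD p]; exact hm), hc p]) hβ hβ1
    filter_upwards [h4] with w hw
    exact hw
  · intro δ
    have h1 : K Pool.Agent.R529.BU.om 1 δ =
        Real.exp Real.eulerMascheroniConstant / 2 * (δ + Real.log (1 / δ)) := by
      unfold K
      have h2 := Pool.Agent.R529.BU.om_one_two 2 (by norm_num) le_rfl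
      have h3 : Pool.Agent.R529.BU.om (2 / 1) = 1 / 2 := by
        rw [div_one]
        linarith
      rw [h3]
      ring
    refine ⟨h1, fun h2 h3 => ?_⟩
    rw [h1]
    have := Pool.Agent.R526.SP.const_lt δ h2 h3
    calc Real.exp Real.eulerMascheroniConstant / 2 * (δ + Real.log (1 / δ)) =
          Real.exp Real.eulerMascheroniConstant * (1 / 2) * (δ + Real.log (1 / δ)) := by ring
      _ < 1 := this

end Pool.Agent.Results.MP_926cc3_nt.SievePreservingMoves
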